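import Pool.Agent.J4H5.RZ.Stm

/-! # Project RZ, (R2): the fourth moment -/

set_option autoImplicit false

namespace Pool.Agent.J4H97.RZ

open Complex MeasureTheory Filter Topology Set
open Pool.Agent.J4H4.NG Pool.Agent.J4H5.RZ

noncomputable section

/-- `(n + 1) ^ (-iv)` -/
def ph (n : ℕ) (v : ℝ) : ℂ := ((n : ℂ) + 1) ^ (-(I * v))

def xx (lam : ℝ) (n : ℕ) : ℂ := (Real.log ((n : ℝ) + 1) : ℂ) - lam - I * (Real.pi / 4)

def co (a lam : ℝ) (n : ℕ) : ℂ := (((n : ℂ) + 1) ^ 2)⁻¹ * cexp (-(a : ℂ) * (xx lam n) ^ 2)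

/-- the derivative of the coefficient with respect to `lam` -/
def cd (a lam : ℝ) (n : ℕ) : ℂ := co a lam n * (2 * a * xx lam n)

theorem ph_norm (n : ℕ) (v : ℝ) : ‖ph n v‖ = 1 := by
  unfold ph
  have : ((n : ℂ) + 1) = ((n + 1 : ℝ) : ℂ) := by push_cast; ring
  rw [this, Complex.norm_cpow_eq_rpow_re_of_pos (by positivity)]
  simp

theorem ph_cont (n : ℕ) : Continuous (ph n) := by
  unfold ph
  have h : ((n : ℂ) + 1) ≠ 0 := by exact_mod_cast Nat.succ_ne_zero n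
  exact (Continuous.neg (continuous_const.mul Complex.continuous_ofReal)).const_cpow (Or.inl h)

theorem DD_eq (a lam v : ℝ) : DD a lam v = DS (co a lam) v := by
  unfold DD DS
  congr 1
  funext n
  have h : ((n : ℂ) + 1) ≠ 0 := by exact_mod_cast Nat.succ_ne_zero n
  have e : ((n : ℂ) + 1) ^ (-(2 : ℂ) - I * v) = (((n : ℂ) + 1) ^ 2)⁻¹ * ((n : ℂ) + 1) ^ (-(I * v)) := by
    rw [sub_eq_add_neg, Complex.cpow_add _ _ h, Complex.cpow_neg, Complex.cpow_ofNat]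
  rw [e]
  unfold co xx
  ring

theorem co_norm (a lam : ℝ) (n : ℕ) : ‖co a lam n‖ = Real.exp (a * Real.pi ^ 2 / 16) * amp a lam (n + 1) := by
  unfold co amp xx
  rw [norm_mul, norm_inv, norm_pow, Complex.norm_exp]
  have h0 : ‖(n : ℂ) + 1‖ = ((n + 1 : ℕ) : ℝ) := by
    have : ((n : ℂ) + 1) = ((n + 1 : ℕ) : ℂ) := by push_cast; ring
    rw [this, Complex.norm_natCast]
  have hl : Real.log ((n + 1 : ℕ) : ℝ) = Real.log ((n : ℝ) + 1) := by push_cast; rfl
  rw [h0, hl]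
  generalize Real.log ((n : ℝ) + 1) = x
  have h : (-(a : ℂ) * ((x : ℂ) - lam - I * (Real.pi / 4)) ^ 2).re =
      a * Real.pi ^ 2 / 16 + -a * (x - lam) ^ 2 := by
    have e : (x : ℂ) - lam - I * (Real.pi / 4) = ⟨x - lam, -(Real.pi / 4)⟩ := by
      apply Complex.ext <;> simp
    rw [e]
    simp only [pow_two, neg_mul, Complex.neg_re, Complex.mul_re, Complex.ofReal_re, Complex.ofReal_im, Complex.mul_im]
    ring
  rw [h, Real.exp_add]
  ring

theorem gau (a x : ℝ) (ha : 0 < a) :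
    Real.exp (-a * x ^ 2) * (|x| + 1) ≤ (2 + 2 / a) * Real.exp (-(a / 2) * x ^ 2) := by
  set y := (a / 2) * x ^ 2 with hy
  have hy0 : 0 ≤ y := by positivity
  have e1 : -a * x ^ 2 = -y + -y := by rw [hy]; ring
  have e2 : -(a / 2) * x ^ 2 = -y := by rw [hy]; ring
  rw [e1, e2, Real.exp_add]
  have h1 : Real.exp (-y) * y ≤ 1 := by
    have h2 : y ≤ Real.exp y := by linarith [Real.add_one_le_exp y]
    have h3 := mul_le_mul_of_nonneg_left h2 (Real.exp_pos (-y)).le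
    rwa [← Real.exp_add, neg_add_cancel, Real.exp_zero] at h3
  have h4 : |x| + 1 ≤ 2 + x ^ 2 := by
    have : 0 ≤ (|x| - 1 / 2) ^ 2 := sq_nonneg _
    have h5 : |x| ^ 2 = x ^ 2 := sq_abs x
    nlinarith
  have h6 : Real.exp (-y) ≤ 1 := Real.exp_le_one_iff.2 (by linarith)
  have h7 : x ^ 2 = 2 / a * y := by rw [hy]; field_simp
  have h8 : Real.exp (-y) * (|x| + 1) ≤ 2 + 2 / a := by
    calc Real.exp (-y) * (|x| + 1) ≤ Real.exp (-y) * (2 + x ^ 2) :=
          mul_le_mul_of_nonneg_left h4 (Real.exp_pos _).le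
      _ = 2 * Real.exp (-y) + 2 / a * (Real.exp (-y) * y) := by rw [h7]; ring
      _ ≤ 2 * 1 + 2 / a * 1 := by
          have : 0 ≤ 2 / a := by positivity
          exact add_le_add (by linarith) (mul_le_mul_of_nonneg_left h1 this)
      _ = 2 + 2 / a := by ring
  calc Real.exp (-y) * Real.exp (-y) * (|x| + 1) = Real.exp (-y) * (|x| + 1) * Real.exp (-y) := by ring
    _ ≤ (2 + 2 / a) * Real.exp (-y) := mul_le_mul_of_nonneg_right h8 (Real.exp_pos _).le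

/-- the constant of the derivative -/
def K2 (a : ℝ) : ℝ := Real.exp (a * Real.pi ^ 2 / 16) * (2 * a) * (2 + 2 / a)

def K1 (a : ℝ) : ℝ := Real.exp (a * Real.pi ^ 2 / 16)

theorem K1_pos (a : ℝ) : 0 < K1 a := Real.exp_pos _

theorem K2_pos (a : ℝ) (ha : 0 < a) : 0 < K2 a := by unfold K2; positivity

theorem cd_norm (a lam : ℝ) (n : ℕ) (ha : 0 < a) : ‖cd a lam n‖ ≤ K2 a * amp (a / 2) lam (n + 1) := by
  unfold cd
  rw [norm_mul, co_norm, norm_mul]
  have h1 : ‖(2 * a : ℂ)‖ = 2 * a := by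
    rw [norm_mul, Complex.norm_real, Real.norm_of_nonneg ha.le]
    simp
  have h2 : ‖xx lam n‖ ≤ |Real.log ((n + 1 : ℕ) : ℝ) - lam| + 1 := by
    have hl : Real.log ((n + 1 : ℕ) : ℝ) = Real.log ((n : ℝ) + 1) := by push_cast; rfl
    unfold xx
    refine (norm_sub_le _ _).trans (add_le_add ?_ ?_)
    · rw [hl, ← Complex.ofReal_sub, Complex.norm_real, Real.norm_eq_abs]
    · rw [norm_mul, Complex.norm_I, one_mul]
      have : (Real.pi / 4 : ℂ) = ((Real.pi / 4 : ℝ) : ℂ) := by push_cast; rfl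
      rw [this, Complex.norm_real, Real.norm_of_nonneg (by positivity)]
      linarith [Real.pi_le_four]
  rw [h1]
  have h3 := gau a (Real.log ((n + 1 : ℕ) : ℝ) - lam) ha
  have h4 : amp a lam (n + 1) * ‖xx lam n‖ ≤ (2 + 2 / a) * amp (a / 2) lam (n + 1) := by
    unfold amp
    calc ((((n + 1 : ℕ) : ℝ)) ^ 2)⁻¹ * Real.exp (-a * (Real.log ((n + 1 : ℕ) : ℝ) - lam) ^ 2) * ‖xx lam n‖
        ≤ ((((n + 1 : ℕ) : ℝ)) ^ 2)⁻¹ * Real.exp (-a * (Real.log ((n + 1 : ℕ) : ℝ) - lam) ^ 2) *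
          (|Real.log ((n + 1 : ℕ) : ℝ) - lam| + 1) :=
          mul_le_mul_of_nonneg_left h2 (by positivity)
      _ = ((((n + 1 : ℕ) : ℝ)) ^ 2)⁻¹ * (Real.exp (-a * (Real.log ((n + 1 : ℕ) : ℝ) - lam) ^ 2) *
          (|Real.log ((n + 1 : ℕ) : ℝ) - lam| + 1)) := by ring
      _ ≤ ((((n + 1 : ℕ) : ℝ)) ^ 2)⁻¹ * ((2 + 2 / a) *
          Real.exp (-(a / 2) * (Real.log ((n + 1 : ℕ) : ℝ) - lam) ^ 2)) :=
          mul_le_mul_of_nonneg_left h3 (by positivity)
      _ = _ := by ring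
  calc Real.exp (a * Real.pi ^ 2 / 16) * amp a lam (n + 1) * (2 * a * ‖xx lam n‖)
      = Real.exp (a * Real.pi ^ 2 / 16) * (2 * a) * (amp a lam (n + 1) * ‖xx lam n‖) := by ring
    _ ≤ Real.exp (a * Real.pi ^ 2 / 16) * (2 * a) * ((2 + 2 / a) * amp (a / 2) lam (n + 1)) :=
        mul_le_mul_of_nonneg_left h4 (by positivity)
    _ = _ := by unfold K2; ring

theorem amp_le (a lam : ℝ) (ha : 0 ≤ a) (k : ℕ) : amp a lam k ≤ ((k : ℝ) ^ 2)⁻¹ := by
  unfold amp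
  have h1 : Real.exp (-a * (Real.log k - lam) ^ 2) ≤ 1 := by
    apply Real.exp_le_one_iff.2
    have : 0 ≤ a * (Real.log k - lam) ^ 2 := by positivity
    linarith
  calc ((k : ℝ) ^ 2)⁻¹ * Real.exp (-a * (Real.log k - lam) ^ 2) ≤ ((k : ℝ) ^ 2)⁻¹ * 1 :=
        mul_le_mul_of_nonneg_left h1 (by positivity)
    _ = _ := mul_one _

theorem sm2 : Summable fun n : ℕ => (((n + 1 : ℕ) : ℝ) ^ 2)⁻¹ :=
  (summable_nat_add_iff 1).2 (Real.summable_nat_pow_inv.2 one_lt_two)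

theorem xx_cont (n : ℕ) : Continuous fun lam : ℝ => xx lam n := by
  unfold xx
  fun_prop

theorem co_cont (a : ℝ) (n : ℕ) : Continuous fun lam : ℝ => co a lam n := by
  unfold co
  exact continuous_const.mul (Complex.continuous_exp.comp (continuous_const.mul ((xx_cont n).pow 2)))

theorem cd_cont (a : ℝ) (n : ℕ) : Continuous fun lam : ℝ => cd a lam n := by
  unfold cd
  exact (co_cont a n).mul (continuous_const.mul (xx_cont n))

theorem cd_bd (a : ℝ) (ha : 0 < a) (n : ℕ) (l v : ℝ) :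
    ‖cd a l n * ph n v‖ ≤ K2 a * (((n + 1 : ℕ) : ℝ) ^ 2)⁻¹ := by
  rw [norm_mul, ph_norm, mul_one]
  exact (cd_norm a l n ha).trans (mul_le_mul_of_nonneg_left (amp_le _ _ (by positivity) _) (K2_pos a ha).le)

theorem co_bd (a : ℝ) (ha : 0 < a) (n : ℕ) (l v : ℝ) :
    ‖co a l n * ph n v‖ ≤ K1 a * (((n + 1 : ℕ) : ℝ) ^ 2)⁻¹ := by
  rw [norm_mul, ph_norm, mul_one, co_norm]
  exact mul_le_mul_of_nonneg_left (amp_le _ _ ha.le _) (K1_pos a).le

/-- `d/dlam` of the Dirichlet series -/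
def gg (a l v : ℝ) : ℂ := DS (cd a l) v

theorem gg_cont (a : ℝ) (ha : 0 < a) : Continuous fun q : ℝ × ℝ => gg a q.1 q.2 := by
  refine continuous_tsum (f := fun (n : ℕ) (q : ℝ × ℝ) => cd a q.1 n * ph n q.2)
    (fun n => ?_) (sm2.mul_left (K2 a)) (fun n q => cd_bd a ha n q.1 q.2)
  exact ((cd_cont a n).comp continuous_fst).mul ((ph_cont n).comp continuous_snd)

theorem f_cont (a lam : ℝ) (ha : 0 < a) : Continuous fun v : ℝ => DS (co a lam) v := by
  refine continuous_tsum (f := fun (n : ℕ) (v : ℝ) => co a lam n * ph n v)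
    (fun n => ?_) (sm2.mul_left (K1 a)) (fun n q => co_bd a ha n lam q)
  exact continuous_const.mul (ph_cont n)

theorem co_deriv (a l : ℝ) (n : ℕ) : HasDerivAt (fun l : ℝ => co a l n) (cd a l n) l := by
  have h0 : HasDerivAt (fun y : ℝ => (y : ℂ)) 1 l := by
    simpa using (hasDerivAt_id l).ofReal_comp
  have h1 : HasDerivAt (fun l : ℝ => xx l n) (-1) l := by
    have := ((hasDerivAt_const l (Real.log ((n : ℝ) + 1) : ℂ)).sub h0).sub_const (I * (Real.pi / 4))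
    simpa [xx] using this
  have h2 := ((h1.pow 2).const_mul (-(a : ℂ))).cexp.const_mul ((((n : ℂ) + 1) ^ 2)⁻¹)
  have e : cd a l n = (((n : ℂ) + 1) ^ 2)⁻¹ * (cexp (-(a : ℂ) * (xx l n) ^ 2) *
      (-(a : ℂ) * ((2 : ℕ) * (xx l n) ^ (2 - 1) * (-1)))) := by
    unfold cd co
    simp only [Nat.cast_ofNat, Nat.add_one_sub_one, pow_one]
    ring
  rw [e]
  exact h2

theorem diff_eq (a : ℝ) (ha : 0 < a) (l0 l1 v : ℝ) :
    DS (co a l1) v - DS (co a l0) v = ∫ l in l0..l1, gg a l v := by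
  have hs := sm2.mul_left (K2 a)
  have h1 : HasSum (fun n : ℕ => ∫ l in l0..l1, cd a l n * ph n v) (∫ l in l0..l1, gg a l v) := by
    refine intervalIntegral.hasSum_integral_of_dominated_convergence
      (fun n _ => K2 a * (((n + 1 : ℕ) : ℝ) ^ 2)⁻¹) (fun n => ?_) (fun n => ?_) ?_ ?_ ?_
    · exact ((cd_cont a n).mul continuous_const).aestronglyMeasurable
    · exact Eventually.of_forall fun t _ => cd_bd a ha n t v
    · exact Eventually.of_forall fun t _ => hs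
    · exact intervalIntegrable_const
    · refine Eventually.of_forall fun t _ => ?_
      exact (Summable.of_norm_bounded hs fun n => cd_bd a ha n t v).hasSum
  have h2 : ∀ n : ℕ, ∫ l in l0..l1, cd a l n * ph n v = co a l1 n * ph n v - co a l0 n * ph n v := by
    intro n
    refine intervalIntegral.integral_eq_sub_of_hasDerivAt (f := fun l => co a l n * ph n v)
      (fun l _ => (co_deriv a l n).mul_const _) ?_
    exact ((cd_cont a n).mul continuous_const).intervalIntegrable _ _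
  simp_rw [h2] at h1
  have h3 : HasSum (fun n : ℕ => co a l1 n * ph n v - co a l0 n * ph n v)
      (DS (co a l1) v - DS (co a l0) v) :=
    (Summable.of_norm_bounded (sm2.mul_left (K1 a)) fun n => co_bd a ha n l1 v).hasSum.sub
      (Summable.of_norm_bounded (sm2.mul_left (K1 a)) fun n => co_bd a ha n l0 v).hasSum
  exact h3.unique h1

theorem pm2 (h : ℝ → ℝ) (hc : Continuous h) (s : ℝ) :
    (∫ x in s..s + 1, h x) ^ 2 ≤ ∫ x in s..s + 1, (h x) ^ 2 := by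
  set m := ∫ x in s..s + 1, h x with hm
  have h0 : 0 ≤ ∫ x in s..s + 1, (h x - m) ^ 2 :=
    intervalIntegral.integral_nonneg (by linarith) fun x _ => sq_nonneg _
  have h1 : ∫ x in s..s + 1, (h x - m) ^ 2 = (∫ x in s..s + 1, (h x) ^ 2) - 2 * m * m + m ^ 2 := by
    have e : ∀ x, (h x - m) ^ 2 = (h x) ^ 2 - 2 * m * h x + m ^ 2 := fun x => by ring
    simp_rw [e]
    have i1 : IntervalIntegrable (fun x => (h x) ^ 2) volume s (s + 1) := (hc.pow 2).intervalIntegrable _ _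
    have i2 : IntervalIntegrable (fun x => 2 * m * h x) volume s (s + 1) :=
      (continuous_const.mul hc).intervalIntegrable _ _
    rw [intervalIntegral.integral_add (i1.sub i2) intervalIntegrable_const,
      intervalIntegral.integral_sub i1 i2, intervalIntegral.integral_const_mul, ← hm,
      intervalIntegral.integral_const]
    simp
  nlinarith

theorem pm4 (h : ℝ → ℝ) (hc : Continuous h) (s : ℝ) :
    (∫ x in s..s + 1, h x) ^ 4 ≤ ∫ x in s..s + 1, (h x) ^ 4 := by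
  have h1 := pm2 h hc s
  have h2 := pm2 (fun x => (h x) ^ 2) (hc.pow 2) s
  have e : ∀ x, ((h x) ^ 2) ^ 2 = (h x) ^ 4 := fun x => by ring
  simp only [e] at h2
  have h3 : (∫ x in s..s + 1, h x) ^ 4 = ((∫ x in s..s + 1, h x) ^ 2) ^ 2 := by ring
  rw [h3]
  exact (pow_le_pow_left₀ (sq_nonneg _) h1 2).trans h2

theorem q4 (A B : ℝ) : (A + B) ^ 4 ≤ 8 * (A ^ 4 + B ^ 4) := by
  have h1 : (A + B) ^ 2 ≤ 2 * (A ^ 2 + B ^ 2) := by nlinarith [sq_nonneg (A - B)]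
  have h2 : ((A + B) ^ 2) ^ 2 ≤ (2 * (A ^ 2 + B ^ 2)) ^ 2 := pow_le_pow_left₀ (sq_nonneg _) h1 2
  nlinarith [sq_nonneg (A ^ 2 - B ^ 2)]

/-- the value at `l1` from the value at `l0` and the derivative -/
theorem f4 (a : ℝ) (ha : 0 < a) (l0 l1 v : ℝ) (h0 : l0 ≤ l1) (h1 : l1 ≤ l0 + 1) :
    ‖DS (co a l1) v‖ ^ 4 ≤ 8 * (‖DS (co a l0) v‖ ^ 4 + ∫ l in l0..l0 + 1, ‖gg a l v‖ ^ 4) := by
  have hc : Continuous fun l => ‖gg a l v‖ :=
    ((gg_cont a ha).comp (continuous_id.prodMk continuous_const)).norm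
  have h2 : ‖DS (co a l1) v‖ ≤ ‖DS (co a l0) v‖ + ∫ l in l0..l0 + 1, ‖gg a l v‖ := by
    have e : DS (co a l1) v = DS (co a l0) v + ∫ l in l0..l1, gg a l v := by
      rw [← diff_eq a ha]; ring
    rw [e]
    refine (norm_add_le _ _).trans (add_le_add le_rfl ?_)
    refine (intervalIntegral.norm_integral_le_integral_norm h0).trans ?_
    exact intervalIntegral.integral_mono_interval le_rfl h0 h1
      (Eventually.of_forall fun l => norm_nonneg _) (hc.intervalIntegrable _ _)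
  have h3 : 0 ≤ ∫ l in l0..l0 + 1, ‖gg a l v‖ :=
    intervalIntegral.integral_nonneg (by linarith) fun x _ => norm_nonneg _
  refine (pow_le_pow_left₀ (norm_nonneg _) h2 4).trans ((q4 _ _).trans ?_)
  have h4 := pm4 _ hc l0
  linarith

theorem DS_smul (c : ℕ → ℂ) (k : ℂ) (v : ℝ) : DS (fun n => k * c n) v = k * DS c v := by
  unfold DS
  rw [← tsum_mul_left]
  congr 1
  funext n
  ring

attribute [local irreducible] gg

/-- (FOUR) for multiples -/
theorem four_mul {a M T lam K : ℝ} (hK : 0 < K) (c : ℕ → ℂ) (hc : ∀ n, ‖c n‖ ≤ K * amp a lam (n + 1))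
    (hF : ∀ c : ℕ → ℂ, Maj a lam c → ∫ v in T..(3 * T), ‖DS c v‖ ^ 4 ≤ M) :
    ∫ v in T..(3 * T), ‖DS c v‖ ^ 4 ≤ K ^ 4 * M := by
  have h1 := hF (fun n => ((K⁻¹ : ℝ) : ℂ) * c n) (fun n => by
    rw [norm_mul, Complex.norm_real, Real.norm_of_nonneg (inv_pos.2 hK).le]
    calc K⁻¹ * ‖c n‖ ≤ K⁻¹ * (K * amp a lam (n + 1)) := mul_le_mul_of_nonneg_left (hc n) (inv_pos.2 hK).le
      _ = amp a lam (n + 1) := by rw [← mul_assoc, inv_mul_cancel₀ hK.ne', one_mul])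
  have h2 : ∀ v, ‖DS (fun n => ((K⁻¹ : ℝ) : ℂ) * c n) v‖ ^ 4 = (K⁻¹) ^ 4 * ‖DS c v‖ ^ 4 := by
    intro v
    rw [DS_smul, norm_mul, Complex.norm_real, Real.norm_of_nonneg (inv_pos.2 hK).le, mul_pow]
  simp_rw [h2] at h1
  rw [intervalIntegral.integral_const_mul] at h1
  have h3 := mul_le_mul_of_nonneg_left h1 (by positivity : (0 : ℝ) ≤ K ^ 4)
  rwa [← mul_assoc, ← mul_pow, mul_inv_cancel₀ hK.ne', one_pow, one_mul] at h3

def CC (a : ℝ) : ℝ := |-(Real.log (2 * Real.pi) / 2) + 3 / (4 * a)| + 1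

theorem CC_pos (a : ℝ) : 0 < CC a := by unfold CC; positivity

theorem lam_close (a T : ℝ) (hT0 : 0 < T) (l : ℝ) (h1 : lamv a T ≤ l) (h2 : l ≤ lamv a T + 1) :
    |l - Real.log T / 2| ≤ CC a := by
  have h3 : lamv a T - Real.log T / 2 = -(Real.log (2 * Real.pi) / 2) + 3 / (4 * a) := by
    unfold lamv LL
    rw [Real.log_div hT0.ne' (by positivity)]
    ring
  have h4 : l - Real.log T / 2 = (lamv a T - Real.log T / 2) + (l - lamv a T) := by ring
  rw [h4, h3]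
  unfold CC
  refine (abs_add_le _ _).trans (add_le_add le_rfl ?_)
  rw [abs_of_nonneg (by linarith)]
  linarith

theorem lam_var (a T v : ℝ) (hT0 : 0 < T) (h1 : T ≤ v) (h2 : v ≤ 3 * T) :
    lamv a T ≤ lamv a v ∧ lamv a v ≤ lamv a T + 1 := by
  have hv0 : 0 < v := by linarith
  have e : lamv a v - lamv a T = (Real.log v - Real.log T) / 2 := by
    unfold lamv LL
    rw [Real.log_div hT0.ne' (by positivity), Real.log_div hv0.ne' (by positivity)]
    ring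
  have h3 : Real.log T ≤ Real.log v := Real.log_le_log hT0 h1
  have h4 : Real.log v ≤ Real.log T + 2 := by
    have h5 : Real.log v ≤ Real.log (3 * T) := Real.log_le_log hv0 h2
    rw [Real.log_mul (by norm_num) hT0.ne'] at h5
    have h6 : Real.log 3 ≤ 3 - 1 := Real.log_le_sub_one_of_pos (by norm_num)
    linarith
  constructor <;> linarith

theorem gs_cont (a : ℝ) (ha : 0 < a) : Continuous fun q : ℝ × ℝ => ‖gg a q.1 q.2‖ ^ 4 :=
  (gg_cont a ha).norm.pow 4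

theorem gt_cont (a : ℝ) (ha : 0 < a) : Continuous fun q : ℝ × ℝ => ‖gg a q.2 q.1‖ ^ 4 :=
  (gs_cont a ha).comp (continuous_snd.prodMk continuous_fst)

theorem in1_cont (a s t : ℝ) (ha : 0 < a) : Continuous fun v => ∫ l in s..t, ‖gg a l v‖ ^ 4 :=
  intervalIntegral.continuous_parametric_intervalIntegral_of_continuous'
    (f := fun v l => ‖gg a l v‖ ^ 4) (gt_cont a ha) _ _

theorem in2_cont (a s t : ℝ) (ha : 0 < a) : Continuous fun l => ∫ v in s..t, ‖gg a l v‖ ^ 4 :=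
  intervalIntegral.continuous_parametric_intervalIntegral_of_continuous'
    (f := fun l v => ‖gg a l v‖ ^ 4) (gs_cont a ha) _ _

theorem swp (a s t s' t' : ℝ) (ha : 0 < a) : ∫ v in s..t, (∫ l in s'..t', ‖gg a l v‖ ^ 4) =
    ∫ l in s'..t', ∫ v in s..t, ‖gg a l v‖ ^ 4 := by
  refine MeasureTheory.intervalIntegral_intervalIntegral_swap (F := fun v l => ‖gg a l v‖ ^ 4) ?_
  have hcc : Continuous (Function.uncurry fun v l => ‖gg a l v‖ ^ 4) := gt_cont a ha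
  refine (hcc.continuousOn.integrableOn_compact
    ((isCompact_uIcc (a := s) (b := t)).prod (isCompact_uIcc (a := s') (b := t')))).mono_set ?_
  exact Set.prod_mono Set.uIoc_subset_uIcc Set.uIoc_subset_uIcc

theorem int3 (f g : ℝ → ℝ) (hf : Continuous f) (hg : Continuous g) (A B s t : ℝ) :
    ∫ v in s..t, (A * f v + A * g v + B) = A * (∫ v in s..t, f v) + A * (∫ v in s..t, g v) + (t - s) * B := by
  have i1 : IntervalIntegrable (fun v => A * f v) volume s t := (continuous_const.mul hf).intervalIntegrable _ _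
  have i2 : IntervalIntegrable (fun v => A * g v) volume s t := (continuous_const.mul hg).intervalIntegrable _ _
  have i3 : IntervalIntegrable (fun v => A * f v + A * g v) volume s t := i1.add i2
  rw [intervalIntegral.integral_add i3 intervalIntegrable_const, intervalIntegral.integral_add i1 i2,
    intervalIntegral.integral_const_mul, intervalIntegral.integral_const_mul,
    intervalIntegral.integral_const, smul_eq_mul]

/-- the common core of (R2) and (R2L) -/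
theorem core (hRE : S_RE) (a : ℝ) (ha : 0 < a) : ∃ C V₀ : ℝ, 0 < C ∧ 1 ≤ V₀ ∧ ∀ T : ℝ, V₀ ≤ T →
    ∀ M1 M2 : ℝ, 0 ≤ M1 → 0 ≤ M2 →
    (∀ c : ℕ → ℂ, Maj a (lamv a T) c → ∫ v in T..(3 * T), ‖DS c v‖ ^ 4 ≤ M1) →
    (∀ l : ℝ, lamv a T ≤ l → l ≤ lamv a T + 1 → ∀ c : ℕ → ℂ, Maj (a / 2) l c →
      ∫ v in T..(3 * T), ‖DS c v‖ ^ 4 ≤ M2) →
    ∫ v in T..(3 * T), (RR a v) ^ 4 ≤ C * (M1 + M2 + (T ^ 3)⁻¹) := by
  obtain ⟨C, V₀, hC, hV₀, hcont, -, hre⟩ := hRE a ha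
  set E : ℝ := Real.exp (9 / (16 * a)) with hE
  have hE0 : 0 < E := Real.exp_pos _
  have hK1 := K1_pos a
  have hK2 := K2_pos a ha
  refine ⟨64 * E ^ 4 * (K1 a ^ 4 + K2 a ^ 4) + 16 * C ^ 4, V₀, by positivity, hV₀,
    fun T hTV M1 M2 hM1 hM2 hF1 hF2 => ?_⟩
  have hT0 : 0 < T := by linarith
  have h3T : T ≤ 3 * T := by linarith
  set l0 : ℝ := lamv a T with hl0
  -- the majorant
  set H : ℝ → ℝ := fun v => 64 * E ^ 4 * ‖DS (co a l0) v‖ ^ 4 +
    64 * E ^ 4 * (∫ l in l0..l0 + 1, ‖gg a l v‖ ^ 4) + 8 * (C / T) ^ 4 with hH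
  have hpt : ∀ v ∈ Set.Icc T (3 * T), (RR a v) ^ 4 ≤ H v := by
    intro v hv
    obtain ⟨h1, h2⟩ := lam_var a T v hT0 hv.1 hv.2
    have hvV : V₀ ≤ v := hTV.trans hv.1
    have hv0 : 0 < v := by linarith [hv.1]
    have h3 := hre v hvV
    have h4 : |RR a v| ≤ E * ‖DS (co a (lamv a v)) v‖ + C / T := by
      have h5 : ‖((RR a v : ℝ) : ℂ)‖ ≤ ‖(gam (2 + I * v) / ((‖gam (2 + I * v)‖ : ℝ) : ℂ)) *
          ((Real.exp (9 / (16 * a)) : ℝ) : ℂ) * DD a (lamv a v) v‖ + C / v := by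
        have := norm_sub_norm_le (((RR a v : ℝ) : ℂ)) ((gam (2 + I * v) / ((‖gam (2 + I * v)‖ : ℝ) : ℂ)) *
          ((Real.exp (9 / (16 * a)) : ℝ) : ℂ) * DD a (lamv a v) v)
        linarith
      rw [Complex.norm_real, Real.norm_eq_abs] at h5
      refine h5.trans (add_le_add ?_ ?_)
      · rw [norm_mul, norm_mul, Complex.norm_real, Real.norm_of_nonneg (Real.exp_pos _).le, DD_eq]
        have h6 : ‖gam (2 + I * v) / ((‖gam (2 + I * v)‖ : ℝ) : ℂ)‖ ≤ 1 := by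
          rw [norm_div, Complex.norm_real, norm_norm]
          exact div_self_le_one _
        calc ‖gam (2 + I * v) / ((‖gam (2 + I * v)‖ : ℝ) : ℂ)‖ * Real.exp (9 / (16 * a)) *
            ‖DS (co a (lamv a v)) v‖ ≤ 1 * Real.exp (9 / (16 * a)) * ‖DS (co a (lamv a v)) v‖ := by
              gcongr
          _ = _ := by rw [one_mul]
      · exact div_le_div_of_nonneg_left hC.le hT0 hv.1
    have h7 : (RR a v) ^ 4 = |RR a v| ^ 4 := by
      rw [show (4 : ℕ) = 2 * 2 from rfl, pow_mul, pow_mul, sq_abs]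
    rw [h7]
    refine (pow_le_pow_left₀ (abs_nonneg _) h4 4).trans ((q4 _ _).trans ?_)
    have h8 := f4 a ha l0 (lamv a v) v h1 h2
    have h9 := mul_le_mul_of_nonneg_left h8 (by positivity : (0 : ℝ) ≤ 8 * E ^ 4)
    have h10 : H v = 64 * E ^ 4 * ‖DS (co a l0) v‖ ^ 4 +
      64 * E ^ 4 * (∫ l in l0..l0 + 1, ‖gg a l v‖ ^ 4) + 8 * (C / T) ^ 4 := rfl
    rw [h10, mul_pow]
    generalize (∫ l in l0..l0 + 1, ‖gg a l v‖ ^ 4) = J at h9 ⊢
    linarith
  have c1 : Continuous fun v => ‖DS (co a l0) v‖ ^ 4 := (f_cont a l0 ha).norm.pow 4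
  have c2 : Continuous fun v => ∫ l in l0..l0 + 1, ‖gg a l v‖ ^ 4 := in1_cont a _ _ ha
  have hHc : Continuous H :=
    ((continuous_const.mul c1).add (continuous_const.mul c2)).add continuous_const
  have hsub : Set.uIcc T (3 * T) ⊆ Set.Ici V₀ := by
    rw [Set.uIcc_of_le h3T]
    exact fun v hv => hTV.trans hv.1
  have hRi : IntervalIntegrable (fun v => (RR a v) ^ 4) volume T (3 * T) :=
    ((hcont.mono hsub).pow 4).intervalIntegrable
  refine (intervalIntegral.integral_mono_on h3T hRi (hHc.intervalIntegrable _ _) hpt).trans ?_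
  have hA : ∫ v in T..(3 * T), ‖DS (co a l0) v‖ ^ 4 ≤ K1 a ^ 4 * M1 :=
    four_mul (a := a) (lam := l0) (K1_pos a) _ (fun n => (co_norm a l0 n).le) hF1
  have hB : ∀ l ∈ Set.Icc l0 (l0 + 1), ∫ v in T..(3 * T), ‖gg a l v‖ ^ 4 ≤ K2 a ^ 4 * M2 := by
    intro l hl'
    have := four_mul (a := a / 2) (lam := l) (K2_pos a ha) _ (fun n => cd_norm a l n ha)
      (hF2 l hl'.1 hl'.2)
    unfold gg
    exact this
  have hB' : ∫ v in T..(3 * T), (∫ l in l0..l0 + 1, ‖gg a l v‖ ^ 4) ≤ K2 a ^ 4 * M2 := by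
    rw [swp a _ _ _ _ ha]
    refine (intervalIntegral.integral_mono_on (by linarith) ((in2_cont a _ _ ha).intervalIntegrable _ _)
      intervalIntegrable_const hB).trans ?_
    rw [intervalIntegral.integral_const]
    simp
  have hI : ∫ v in T..(3 * T), H v = 64 * E ^ 4 * (∫ v in T..(3 * T), ‖DS (co a l0) v‖ ^ 4) +
      64 * E ^ 4 * (∫ v in T..(3 * T), ∫ l in l0..l0 + 1, ‖gg a l v‖ ^ 4) + 2 * T * (8 * (C / T) ^ 4) := by
    have := int3 _ _ c1 c2 (64 * E ^ 4) (8 * (C / T) ^ 4) T (3 * T)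
    rw [show (3 * T - T) = 2 * T by ring] at this
    exact this
  rw [hI]
  have hlast : 2 * T * (8 * (C / T) ^ 4) = 16 * C ^ 4 * (T ^ 3)⁻¹ := by
    field_simp
    ring
  rw [hlast]
  have hE4 : 0 ≤ 64 * E ^ 4 := by positivity
  have m1 := mul_le_mul_of_nonneg_left hA hE4
  have m2 := mul_le_mul_of_nonneg_left hB' hE4
  have hT3 : 0 < (T ^ 3)⁻¹ := by positivity
  refine (add_le_add (add_le_add m1 m2) le_rfl).trans ?_
  have n1 : 0 ≤ 64 * E ^ 4 * K1 a ^ 4 := by positivity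
  have n2 : 0 ≤ 64 * E ^ 4 * K2 a ^ 4 := by positivity
  have n3 : 0 ≤ 16 * C ^ 4 := by positivity
  have e : (64 * E ^ 4 * (K1 a ^ 4 + K2 a ^ 4) + 16 * C ^ 4) * (M1 + M2 + (T ^ 3)⁻¹) =
      64 * E ^ 4 * (K1 a ^ 4 * M1) + 64 * E ^ 4 * (K2 a ^ 4 * M2) + 16 * C ^ 4 * (T ^ 3)⁻¹ +
      (64 * E ^ 4 * K1 a ^ 4 * (M2 + (T ^ 3)⁻¹) + 64 * E ^ 4 * K2 a ^ 4 * (M1 + (T ^ 3)⁻¹) +
        16 * C ^ 4 * (M1 + M2)) := by ring
  rw [e]
  have : 0 ≤ 64 * E ^ 4 * K1 a ^ 4 * (M2 + (T ^ 3)⁻¹) + 64 * E ^ 4 * K2 a ^ 4 * (M1 + (T ^ 3)⁻¹) +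
        16 * C ^ 4 * (M1 + M2) := by positivity
  linarith

/-- **(R2)** -/
theorem t_R2 : S_R2' := by
  intro _ hF hRE a ε ha hε
  obtain ⟨C, V₀, hC, hV₀, hcore⟩ := core hRE a ha
  obtain ⟨T1, hT1, hF1⟩ := hF a (ε / 2) (CC a) ha (by positivity) (CC_pos a)
  obtain ⟨T2, hT2, hF2⟩ := hF (a / 2) (ε / 2) (CC a) (by positivity) (by positivity) (CC_pos a)
  obtain ⟨T3, hT3⟩ := Filter.eventually_atTop.1
    ((tendsto_rpow_atTop (show 0 < ε / 2 by positivity)).eventually_ge_atTop (C * 3))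
  refine ⟨max (max T1 T2) (max (max V₀ T3) 2), le_max_of_le_right (le_max_right _ _), fun T hT => ?_⟩
  have hTT1 : T1 ≤ T := (le_max_left _ _).trans ((le_max_left _ _).trans hT)
  have hTT2 : T2 ≤ T := (le_max_right _ _).trans ((le_max_left _ _).trans hT)
  have hTV : V₀ ≤ T := (le_max_left _ _).trans ((le_max_left _ _).trans ((le_max_right _ _).trans hT))
  have hTT3 : T3 ≤ T := (le_max_right _ _).trans ((le_max_left _ _).trans ((le_max_right _ _).trans hT))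
  have hT2' : 2 ≤ T := (le_max_right _ _).trans ((le_max_right _ _).trans hT)
  have hT0 : 0 < T := by linarith
  have hTD := hT3 T hTT3
  have hTe : 0 < T ^ (ε / 2 - 2) := Real.rpow_pos_of_pos hT0 _
  refine (hcore T hTV (T ^ (ε / 2 - 2)) (T ^ (ε / 2 - 2)) hTe.le hTe.le
    (hF1 T _ hTT1 (lam_close a T hT0 _ le_rfl (by linarith)))
    (fun l h1 h2 => hF2 T l hTT2 (lam_close a T hT0 l h1 h2))).trans ?_
  have h3 : (T ^ 3)⁻¹ ≤ T ^ (ε / 2 - 2) := by
    have e1 : (T ^ 3)⁻¹ = T ^ (-(3 : ℝ)) := by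
      rw [Real.rpow_neg hT0.le]
      have : T ^ (3 : ℝ) = T ^ 3 := by exact_mod_cast Real.rpow_natCast T 3
      rw [this]
    rw [e1]
    exact Real.rpow_le_rpow_of_exponent_le (by linarith) (by linarith)
  have h4 : T ^ (ε - 2) = T ^ (ε / 2) * T ^ (ε / 2 - 2) := by
    rw [← Real.rpow_add hT0]
    congr 1
    ring
  rw [h4]
  calc C * (T ^ (ε / 2 - 2) + T ^ (ε / 2 - 2) + (T ^ 3)⁻¹)
      ≤ C * (T ^ (ε / 2 - 2) + T ^ (ε / 2 - 2) + T ^ (ε / 2 - 2)) :=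
        mul_le_mul_of_nonneg_left (by linarith) hC.le
    _ = C * 3 * T ^ (ε / 2 - 2) := by ring
    _ ≤ T ^ (ε / 2) * T ^ (ε / 2 - 2) := mul_le_mul_of_nonneg_right hTD hTe.le

end

end Pool.Agent.J4H97.RZ
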