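import Pool.Agent.J4H5.RZ.Stm2
import Pool.Agent.J4H97.RZ.R2

/-! # Project RZ, (R2L): the fourth moment, with powers of the logarithm -/

set_option autoImplicit false

namespace Pool.Agent.J4H97.RZ

open Complex MeasureTheory Filter Topology Set
open Pool.Agent.J4H4.NG Pool.Agent.J4H5.RZ

/-- **(R2L)** -/
theorem t_R2L : S_R2L' := by
  intro _ hF hRE a ha
  obtain ⟨C, V₀, hC, hV₀, hcore⟩ := core hRE a ha
  obtain ⟨C1, T1, hC1, hT1, hF1⟩ := hF a (CC a) ha (CC_pos a)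
  obtain ⟨C2, T2, hC2, hT2, hF2⟩ := hF (a / 2) (CC a) (by positivity) (CC_pos a)
  refine ⟨C * (C1 + C2 + 1), max (max T1 T2) (max V₀ 3), by positivity,
    le_max_of_le_right (le_max_right _ _), fun T hT => ?_⟩
  have hTT1 : T1 ≤ T := (le_max_left _ _).trans ((le_max_left _ _).trans hT)
  have hTT2 : T2 ≤ T := (le_max_right _ _).trans ((le_max_left _ _).trans hT)
  have hTV : V₀ ≤ T := (le_max_left _ _).trans ((le_max_right _ _).trans hT)
  have hT3' : 3 ≤ T := (le_max_right _ _).trans ((le_max_right _ _).trans hT)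
  have hT0 : 0 < T := by linarith
  have hlog : 1 ≤ Real.log T := by
    rw [Real.le_log_iff_exp_le hT0]
    exact Real.exp_one_lt_three.le.trans hT3'
  have hTe : 0 < T ^ (-(2 : ℝ)) := Real.rpow_pos_of_pos hT0 _
  have hL : 1 ≤ (Real.log T) ^ 5 := one_le_pow₀ hlog
  set X : ℝ := (Real.log T) ^ 5 * T ^ (-(2 : ℝ)) with hX
  have hX0 : 0 < X := by positivity
  have a1 : ∀ c : ℕ → ℂ, Maj a (lamv a T) c → ∫ v in T..(3 * T), ‖DS c v‖ ^ 4 ≤ C1 * X := by
    intro c hc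
    have := hF1 T _ hTT1 (lam_close a T hT0 _ le_rfl (by linarith)) c hc
    rwa [mul_assoc] at this
  have a2 : ∀ l : ℝ, lamv a T ≤ l → l ≤ lamv a T + 1 → ∀ c : ℕ → ℂ, Maj (a / 2) l c →
      ∫ v in T..(3 * T), ‖DS c v‖ ^ 4 ≤ C2 * X := by
    intro l h1 h2 c hc
    have := hF2 T l hTT2 (lam_close a T hT0 l h1 h2) c hc
    rwa [mul_assoc] at this
  refine (hcore T hTV (C1 * X) (C2 * X) (by positivity) (by positivity) a1 a2).trans ?_
  have h3 : (T ^ 3)⁻¹ ≤ X := by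
    have e1 : (T ^ 3)⁻¹ = T ^ (-(3 : ℝ)) := by
      rw [Real.rpow_neg hT0.le]
      have : T ^ (3 : ℝ) = T ^ 3 := by exact_mod_cast Real.rpow_natCast T 3
      rw [this]
    rw [e1, hX]
    have h4 : T ^ (-(3 : ℝ)) ≤ T ^ (-(2 : ℝ)) :=
      Real.rpow_le_rpow_of_exponent_le (by linarith) (by norm_num)
    nlinarith
  calc C * (C1 * X + C2 * X + (T ^ 3)⁻¹) ≤ C * (C1 * X + C2 * X + X) :=
        mul_le_mul_of_nonneg_left (by linarith) hC.le
    _ = C * (C1 + C2 + 1) * (Real.log T) ^ 5 * T ^ (-(2 : ℝ)) := by rw [hX]; ring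

end Pool.Agent.J4H97.RZ
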